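import Pool.Agent.Q231.RBDirNP

/-!
# The red-blue cut problem in directed graphs is NP-complete

A digraph whose arcs are coloured red or blue is given by the list `V` of its vertices and the list
`A` of its arcs `(tail, head, colour)`; the question is whether some nonempty proper subset `X` of
`V` has at most `r` red and at most `b` blue arcs in `δ⁺(X)`.

The reduction is from CLIQUE.  A set of vertices all of whose members receive arcs from everywhere,
and a set of vertices all of whose members send arcs everywhere, force the position of these two
sets with respect to `X`; so they play the roles of a source and of a sink.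
-/

set_option autoImplicit false

namespace Pool.Agent.Results.MP_ac2b6c_lc.GlobalCutNPComplete

open Pool.Agent.NPC Pool.Agent.Q231.RBDir

/-- **The directed red-blue cut problem is NP-complete**: it is in `NP` and it is `NP`-hard. It
stays `NP`-hard for simple digraphs, without loops and without parallel arcs (third part). In
particular it is solvable in polynomial time if and only if `P = NP` (last part). -/
theorem result :
    InNPP RedBlueCut ∧ NPHardP RedBlueCut ∧
    (∀ L : Set (List Bool), InNP L → ∃ f : List Bool → Inst, PolyTime (fun x => bits (f x)) ∧
      (∀ x, IsDigraph (f x).1 (f x).2.1 ∧ Simple (f x).2.1) ∧ ∀ x, x ∈ L ↔ RedBlueCut (f x)) ∧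
    (InPP RedBlueCut ↔ ∀ L : Set (List Bool), InNP L → InP L) := by
  refine ⟨inNP, hardPr.toHardI.toNPHardP, fun L hL => ?_, ⟨fun h => ?_, fun h => h _ inNP⟩⟩
  · obtain ⟨f, hf, h1, h2⟩ := hardPr L hL
    exact ⟨f, PC.toPolyTime hf, h1, h2⟩
  · exact NPHard.collapse hardPr.toHardI.toNPHardP h

end Pool.Agent.Results.MP_ac2b6c_lc.GlobalCutNPComplete
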